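import Mathlib

set_option autoImplicit false

namespace Pool.Agent.L0h13.QD

open Filter Topology

/-- The rank of the group of morphisms between two semisimple objects with multiplicities `m`, `n`
(coefficients in an algebraically closed field): the sum of `m s * n s`. -/
noncomputable def pair {S : Type} (m n : S →₀ ℕ) : ℕ := m.sum fun s a => a * n s

/-- Motives modulo numerical equivalence, with correspondences of all degrees and with coefficients
in an algebraically closed field of characteristic 0 (Jannsen: semisimple). -/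
structure NumMotives where
  /-- isomorphism classes of motives, with direct sum and tensor product -/
  R : Type
  [ring : CommSemiring R]
  /-- isomorphism classes of simple motives -/
  S : Type
  /-- the multiplicities of the simple motives in a motive -/
  mult : R →+ (S →₀ ℕ)
  /-- the class of a simple motive -/
  cls : S → R
  mult_cls : ∀ s, mult (cls s) = Finsupp.single s 1
  /-- every motive is the direct sum of simple motives -/
  semisimple : ∀ x, x = (mult x).sum fun s n => n • cls s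
  /-- the unit motive is simple -/
  unit : S
  cls_unit : cls unit = 1
  /-- the dual motive -/
  dual : R →+* R
  dual_dual : ∀ x, dual (dual x) = x
  /-- `Hom (x, y) = Hom (1, dual x ⊗ y)` -/
  adj : ∀ x y, pair (mult x) (mult y) = mult (dual x * y) unit
  /-- the total dimension of the cohomology of a motive -/
  dim : R →+* ℕ
  dim_dual : ∀ x, dim (dual x) = dim x
  /-- the rank of the cycles modulo numerical equivalence is at most the dimension of the cohomology -/
  rank_le : ∀ x, mult x unit ≤ dim x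

attribute [instance] NumMotives.ring

theorem pair_eq {S : Type} (m n : S →₀ ℕ) (T : Finset S) (hm : m.support ⊆ T) :
    pair m n = ∑ s ∈ T, m s * n s := by
  unfold pair
  rw [Finsupp.sum_of_support_subset _ hm]
  intro i _
  simp

theorem pair_sq_le {S : Type} (m n : S →₀ ℕ) : pair m n ^ 2 ≤ pair m m * pair n n := by
  classical
  rw [pair_eq m n (m.support ∪ n.support) Finset.subset_union_left,
    pair_eq m m (m.support ∪ n.support) Finset.subset_union_left,
    pair_eq n n (m.support ∪ n.support) Finset.subset_union_right]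
  have := Finset.sum_mul_sq_le_sq_mul_sq (m.support ∪ n.support) (fun s => m s) (fun s => n s)
  simpa [sq] using this

namespace NumMotives

variable (M : NumMotives)

/-- the rank of the numerical cycle classes on a motive: the multiplicity of the unit motive -/
noncomputable def rk (x : M.R) : ℕ := M.mult x M.unit

theorem rk_add (x y : M.R) : M.rk (x + y) = M.rk x + M.rk y := by
  simp [rk]

theorem rk_one : M.rk 1 = 1 := by
  rw [← M.cls_unit, rk, M.mult_cls]; simp

theorem cs (x y : M.R) : M.rk (M.dual x * y) ^ 2 ≤ M.rk (M.dual x * x) * M.rk (M.dual y * y) := by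
  unfold rk
  rw [← M.adj, ← M.adj, ← M.adj]
  exact pair_sq_le _ _

theorem rk_le (x : M.R) : M.rk x ≤ M.dim x := M.rank_le x

theorem mult_eq (x : M.R) (s : M.S) : M.mult x s = M.rk (M.dual (M.cls s) * x) := by
  unfold rk
  rw [← M.adj, M.mult_cls]
  unfold pair
  simp

theorem dim_pos (s : M.S) : 0 < M.dim (M.cls s) := by
  have h := M.mult_eq (M.cls s) s
  rw [M.mult_cls] at h
  have h2 := M.rk_le (M.dual (M.cls s) * M.cls s)
  rw [← h, map_mul, M.dim_dual] at h2
  simp at h2
  rcases Nat.eq_zero_or_pos (M.dim (M.cls s)) with h0 | h0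
  · rw [h0] at h2; omega
  · exact h0

/-- the tensor power trick -/
theorem rk_selfdual_le (v w : M.R) (hv : M.dual v = v) (hw : M.dual w = w) (k : ℕ) :
    M.rk (w * v ^ (2 * k)) ≤ M.dim w * M.rk (v ^ (2 * k)) := by
  have key : ∀ i j : ℕ, M.rk (w ^ (i + j) * v ^ (2 * k)) ^ 2
      ≤ M.rk (w ^ (2 * i) * v ^ (2 * k)) * M.rk (w ^ (2 * j) * v ^ (2 * k)) := by
    intro i j
    have h := M.cs (w ^ i * v ^ k) (w ^ j * v ^ k)
    simp only [map_mul, map_pow, hv, hw] at h
    have e1 : w ^ i * v ^ k * (w ^ j * v ^ k) = w ^ (i + j) * v ^ (2 * k) := by ring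
    have e2 : w ^ i * v ^ k * (w ^ i * v ^ k) = w ^ (2 * i) * v ^ (2 * k) := by ring
    have e3 : w ^ j * v ^ k * (w ^ j * v ^ k) = w ^ (2 * j) * v ^ (2 * k) := by ring
    rw [e1, e2, e3] at h
    exact h
  set g : ℕ → ℕ := fun i => M.rk (w ^ i * v ^ (2 * k)) with hg
  have hg0 : g 0 = M.rk (v ^ (2 * k)) := by simp [hg]
  have hg1 : g 1 = M.rk (w * v ^ (2 * k)) := by simp [hg]
  rw [← hg0, ← hg1]
  have hpow : ∀ n : ℕ, g 1 ^ (2 ^ n) * g 0 ≤ g 0 ^ (2 ^ n) * g (2 ^ n) := by
    intro n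
    induction n with
    | zero => simp; exact le_of_eq (mul_comm _ _)
    | succ n ih =>
      have h1 : g (2 ^ n) ^ 2 ≤ g 0 * g (2 ^ (n + 1)) := by
        have := key 0 (2 ^ n)
        simp only [zero_add, mul_zero] at this
        have e : 2 * 2 ^ n = 2 ^ (n + 1) := by ring
        rw [e] at this
        exact this
      have h2 : (g 1 ^ (2 ^ n) * g 0) ^ 2 ≤ (g 0 ^ (2 ^ n) * g (2 ^ n)) ^ 2 :=
        Nat.pow_le_pow_left ih 2
      have h3 : g 0 * (g 1 ^ (2 ^ (n + 1)) * g 0) ≤ g 0 * (g 0 ^ (2 ^ (n + 1)) * g (2 ^ (n + 1))) := by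
        calc g 0 * (g 1 ^ (2 ^ (n + 1)) * g 0) = (g 1 ^ (2 ^ n) * g 0) ^ 2 := by ring
          _ ≤ (g 0 ^ (2 ^ n) * g (2 ^ n)) ^ 2 := h2
          _ = g 0 ^ (2 ^ (n + 1)) * g (2 ^ n) ^ 2 := by ring
          _ ≤ g 0 ^ (2 ^ (n + 1)) * (g 0 * g (2 ^ (n + 1))) := Nat.mul_le_mul_left _ h1
          _ = g 0 * (g 0 ^ (2 ^ (n + 1)) * g (2 ^ (n + 1))) := by ring
      rcases Nat.eq_zero_or_pos (g 0) with h0 | h0
      · rw [h0]; simp
      · exact Nat.le_of_mul_le_mul_left h3 h0
  have hbd : ∀ m : ℕ, g m ≤ M.dim w ^ m * M.dim v ^ (2 * k) := by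
    intro m
    have := M.rk_le (w ^ m * v ^ (2 * k))
    simpa [hg] using this
  rcases Nat.eq_zero_or_pos (g 0) with h0 | h0
  · have h1 := key 0 1
    simp only [zero_add, mul_zero] at h1
    have h2 : g 1 ^ 2 ≤ g 0 * g (2 * 1) := by simpa [hg] using h1
    rw [h0] at h2
    have : g 1 = 0 := by
      by_contra hne
      have : 0 < g 1 ^ 2 := by positivity
      omega
    rw [this]; simp
  · by_contra hlt
    push Not at hlt
    set c := M.dim w * g 0 with hc
    set B := M.dim v ^ (2 * k) with hB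
    have hmain : ∀ n : ℕ, g 1 ^ (2 ^ n) * g 0 ≤ c ^ (2 ^ n) * B := by
      intro n
      calc g 1 ^ (2 ^ n) * g 0 ≤ g 0 ^ (2 ^ n) * g (2 ^ n) := hpow n
        _ ≤ g 0 ^ (2 ^ n) * (M.dim w ^ (2 ^ n) * B) := Nat.mul_le_mul_left _ (hbd _)
        _ = c ^ (2 ^ n) * B := by rw [hc]; ring
    rcases Nat.eq_zero_or_pos c with hc0 | hc0
    · have := hmain 0
      rw [hc0] at this hlt
      simp at this
      rcases this with h | h <;> omega
    · have hcr : (0 : ℝ) < c := by exact_mod_cast hc0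
      obtain ⟨n, hn⟩ := exists_nat_gt ((c : ℝ) * B)
      have h1 : ((g 1 : ℝ) / c) ^ (2 ^ n) ≤ B := by
        rw [div_pow, div_le_iff₀ (by positivity)]
        have h2 : g 1 ^ (2 ^ n) ≤ c ^ (2 ^ n) * B := by
          calc g 1 ^ (2 ^ n) = g 1 ^ (2 ^ n) * 1 := by ring
            _ ≤ g 1 ^ (2 ^ n) * g 0 := Nat.mul_le_mul_left _ h0
            _ ≤ _ := hmain n
        have h3 : ((g 1 ^ (2 ^ n) : ℕ) : ℝ) ≤ ((c ^ (2 ^ n) * B : ℕ) : ℝ) := by exact_mod_cast h2
        push_cast at h3
        linarith [h3, mul_comm ((B : ℝ)) ((c : ℝ) ^ 2 ^ n)]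
      have h4 : 1 + (1 : ℝ) / c ≤ (g 1 : ℝ) / c := by
        rw [le_div_iff₀ hcr, add_mul, one_mul, div_mul_cancel₀ _ hcr.ne']
        exact_mod_cast hlt
      have h5 : 1 + ((2 ^ n : ℕ) : ℝ) * (1 / c) ≤ (1 + (1 : ℝ) / c) ^ (2 ^ n) :=
        one_add_mul_le_pow (by have : (0 : ℝ) < 1 / c := by positivity
                               linarith) _
      have h6 : (1 + (1 : ℝ) / c) ^ (2 ^ n) ≤ ((g 1 : ℝ) / c) ^ (2 ^ n) :=
        pow_le_pow_left₀ (by positivity) h4 _
      have h7 : (n : ℝ) ≤ ((2 ^ n : ℕ) : ℝ) := by exact_mod_cast Nat.lt_two_pow_self.le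
      have h8 : ((2 ^ n : ℕ) : ℝ) * (1 / c) ≤ B := by linarith
      rw [mul_one_div, div_le_iff₀ hcr] at h8
      linarith [mul_comm (B : ℝ) c]

theorem rk_mul_le (v y : M.R) (hv : M.dual v = v) (k : ℕ) :
    M.rk (y * v ^ (2 * k)) ≤ M.dim y * M.rk (v ^ (2 * k)) := by
  have h := M.cs (v ^ k) (y * v ^ k)
  simp only [map_mul, map_pow, hv] at h
  have e1 : v ^ k * (y * v ^ k) = y * v ^ (2 * k) := by ring
  have e2 : v ^ k * v ^ k = v ^ (2 * k) := by ring
  have e3 : M.dual y * v ^ k * (y * v ^ k) = (M.dual y * y) * v ^ (2 * k) := by ring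
  rw [e1, e2, e3] at h
  have h2 := M.rk_selfdual_le v (M.dual y * y) hv (by rw [map_mul, M.dual_dual, mul_comm]) k
  rw [map_mul, M.dim_dual] at h2
  have h3 : M.rk (y * v ^ (2 * k)) ^ 2 ≤ (M.dim y * M.rk (v ^ (2 * k))) ^ 2 := by
    calc M.rk (y * v ^ (2 * k)) ^ 2 ≤ _ := h
      _ ≤ M.rk (v ^ (2 * k)) * (M.dim y * M.dim y * M.rk (v ^ (2 * k))) := Nat.mul_le_mul_left _ h2
      _ = (M.dim y * M.rk (v ^ (2 * k))) ^ 2 := by ring
  exact le_of_sq_le_sq' h3
where
  le_of_sq_le_sq' {a b : ℕ} (h : a ^ 2 ≤ b ^ 2) : a ≤ b := by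
    by_contra hlt
    push Not at hlt
    have := Nat.pow_lt_pow_left hlt (n := 2) (by norm_num)
    omega

end NumMotives

end Pool.Agent.L0h13.QD
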