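import Pool.Agent.L0h13.QD.ZeroOne

set_option autoImplicit false

namespace Pool.Agent.L0h13.QD

open Filter Topology
open scoped ENNReal

namespace NumMotives

variable {M : NumMotives}

theorem tendsto_atTop_of_index {v : M.R} (h : M.IsVariety v) (hg : M.FullGrowth v) (H : M.R →+ ℕ)
    (hN : index v H = ⊤) :
    Tendsto (fun k : ℕ => (H (v ^ (2 * k)) : ℝ) / (M.rk (v ^ (2 * k)) : ℝ)) atTop atTop := by
  have h1 := tendsto_index h hg H
  rw [hN, ENNReal.tendsto_nhds_top_iff_nat] at h1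
  rw [tendsto_atTop]
  intro x
  obtain ⟨n, hn⟩ := exists_nat_ge x
  filter_upwards [h1 n] with k hk
  have hpos : 0 < M.rk (v ^ (2 * k)) := h.rk_pos (2 * k)
  rw [ENNReal.lt_div_iff_mul_lt (Or.inl (by exact_mod_cast hpos.ne'))
    (Or.inl (ENNReal.natCast_ne_top _))] at hk
  have hk2 : n * M.rk (v ^ (2 * k)) < H (v ^ (2 * k)) := by exact_mod_cast hk
  have hposr : (0 : ℝ) < M.rk (v ^ (2 * k)) := by exact_mod_cast hpos
  rw [le_div_iff₀ hposr]
  have hk3 : ((n * M.rk (v ^ (2 * k)) : ℕ) : ℝ) ≤ (H (v ^ (2 * k)) : ℝ) := by exact_mod_cast hk2.le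
  push_cast at hk3
  nlinarith

theorem all_of_index_lt_two {v : M.R} (h : M.IsVariety v) (H : M.R →+ ℕ) (h1 : H 1 = 1)
    (hN : index v H < 2) (r : ℕ) : H (v ^ r) = M.rk (v ^ r) := by
  by_contra hne
  exact absurd (two_le_index h H h1 r hne) (not_le.2 hN)

end NumMotives

end Pool.Agent.L0h13.QD
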