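import Pool.Agent.L0h13.QD.Fin

set_option autoImplicit false

namespace Pool.Agent.L0h13.QD

open Filter Topology
open scoped ENNReal

namespace NumMotives

open Classical in
/-- the dimension of the cohomology of the simple motive `s` if it is of Tate type, else zero -/
noncomputable def tateDim (M : NumMotives) (T : M.S → Prop) (s : M.S) : ℕ :=
  if T s then M.dim (M.cls s) else 0

/-- the order of the pole: the multiplicity of the eigenvalues `q^i` of the Frobenius endomorphism on the
cohomology in degree `2i`, for all `i`, if `T s` says that these are the eigenvalues on `s` -/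
noncomputable def pole (M : NumMotives) (T : M.S → Prop) : M.R →+ ℕ :=
  (Finsupp.liftAddHom (fun s => AddMonoidHom.mulRight (M.tateDim T s))).comp M.mult

variable {M : NumMotives}

theorem pole_eq (T : M.S → Prop) (x : M.R) :
    M.pole T x = (M.mult x).sum fun s n => n * M.tateDim T s := by
  simp [pole, Finsupp.liftAddHom_apply]

theorem pole_cls (T : M.S → Prop) (s : M.S) : M.pole T (M.cls s) = M.tateDim T s := by
  rw [pole_eq, M.mult_cls]
  simp

theorem pole_one (T : M.S → Prop) (h : T M.unit) : M.pole T 1 = 1 := by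
  classical
  have : M.pole T 1 = M.tateDim T M.unit := by rw [← pole_cls, M.cls_unit]
  rw [this, tateDim, if_pos h, M.cls_unit, map_one]

/-- The cohomology classes and the Frobenius endomorphism of the powers of a variety over a finite field. -/
structure FrobeniusData (M : NumMotives) (v : M.R) where
  /-- the eigenvalues of the Frobenius endomorphism on the simple motive `s` are powers of `q` -/
  T : M.S → Prop
  unit_T : T M.unit
  /-- the dimension of the span of the cycle classes in the cohomology -/
  h : M.R →+ ℕ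
  h_one : h 1 = 1
  /-- the dimension of the space of the Tate classes, the invariants -/
  inv : M.R →+ ℕ
  h_le : ∀ x, h x ≤ inv x
  inv_le : ∀ x, inv x ≤ M.pole T x
  /-- the algebra of functions (see `CycleAlgebra`) -/
  alg : CycleAlgebra M v h
  /-- if homological and numerical equivalence coincide then the Frobenius endomorphism is semisimple -/
  semisimple : (∀ r : ℕ, h (v ^ r) = M.rk (v ^ r)) → ∀ r : ℕ, inv (v ^ r) = M.pole T (v ^ r)

theorem index_mono {v : M.R} (H H' : M.R →+ ℕ) (hle : ∀ x, H x ≤ H' x) : index v H ≤ index v H' := by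
  classical
  unfold index
  apply ENNReal.tsum_le_tsum
  intro s
  split_ifs
  · exact_mod_cast Nat.mul_le_mul_right _ (hle _)
  · exact le_rfl

/-- the index for the order of the pole is a sum of squares -/
theorem index_pole (v : M.R) (T : M.S → Prop) :
    index v (M.pole T) = ∑' s : {s : M.S // Occurs v s ∧ T s}, ((M.dim (M.cls s) ^ 2 : ℕ) : ℝ≥0∞) := by
  classical
  refine Eq.trans ?_
    (tsum_subtype {s : M.S | Occurs v s ∧ T s} (fun s => ((M.dim (M.cls s) ^ 2 : ℕ) : ℝ≥0∞))).symm
  unfold index
  apply tsum_congr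
  intro s
  rw [pole_cls, tateDim, Set.indicator_apply]
  by_cases h1 : Occurs v s
  · by_cases h2 : T s
    · rw [if_pos h1, if_pos h2, if_pos (show s ∈ {s : M.S | Occurs v s ∧ T s} from ⟨h1, h2⟩), sq]
    · have h3 : s ∉ {s : M.S | Occurs v s ∧ T s} := fun h => h2 h.2
      rw [if_pos h1, if_neg h2, if_neg h3]; simp
  · have h3 : s ∉ {s : M.S | Occurs v s ∧ T s} := fun h => h1 h.1
    rw [if_neg h1, if_neg h3]

/-- A bound which holds infinitely often bounds the limit. -/
theorem index_le_of_frequently {v : M.R} (h : M.IsVariety v) (hg : M.FullGrowth v) (H : M.R →+ ℕ)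
    (c : ℝ) (hf : ∃ᶠ k : ℕ in atTop, (H (v ^ (2 * k)) : ℝ) ≤ c * M.rk (v ^ (2 * k))) :
    index v H ≤ ENNReal.ofReal c := by
  by_contra hlt
  rw [not_le] at hlt
  have h1 := (tendsto_index h hg H).eventually (lt_mem_nhds hlt)
  apply hf
  filter_upwards [h1] with k hk hle
  have hpos : 0 < M.rk (v ^ (2 * k)) := h.rk_pos (2 * k)
  have hposr : (0 : ℝ) < M.rk (v ^ (2 * k)) := by exact_mod_cast hpos
  have hc : (H (v ^ (2 * k)) : ℝ) / M.rk (v ^ (2 * k)) ≤ c := by
    rw [div_le_iff₀ hposr]; exact hle
  have h2 : (H (v ^ (2 * k)) : ℝ≥0∞) / (M.rk (v ^ (2 * k)) : ℝ≥0∞) ≤ ENNReal.ofReal c := by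
    have e := ENNReal.ofReal_div_of_pos (x := (H (v ^ (2 * k)) : ℝ)) hposr
    rw [ENNReal.ofReal_natCast, ENNReal.ofReal_natCast] at e
    rw [← e]
    exact ENNReal.ofReal_le_ofReal hc
  exact absurd hk (not_lt.2 h2)

end NumMotives

end Pool.Agent.L0h13.QD
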