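import Pool.Agent.L0h13.QD.Frob

set_option autoImplicit false

namespace Pool.Agent.L0h13.QD

open Filter Topology
open scoped ENNReal

namespace NumMotives

variable {M : NumMotives}

/-- Object classes and Hodge classes of the products of copies of smooth proper categories. -/
structure HodgeData (M : NumMotives) (v : M.R) where
  /-- the dimension of the span of the classes of the objects in topological K-theory -/
  obj : M.R →+ ℕ
  obj_one : obj 1 = 1
  /-- the dimension of the space of the Hodge classes -/
  hdg : M.R →+ ℕ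
  hdg_one : hdg 1 = 1
  obj_le : ∀ x, obj x ≤ hdg x
  /-- the algebra of functions (see `CycleAlgebra`) -/
  alg : CycleAlgebra M v obj

theorem obj_eq_rk {v : M.R} (hv : M.IsVariety v) (D : HodgeData M v) (hN : index v D.hdg ≠ ⊤) (r : ℕ) :
    D.obj (v ^ r) = M.rk (v ^ r) := by
  apply all_of_index_lt_two hv D.obj D.obj_one
  rcases index_eq_one_or_top hv D.obj_one D.alg with h | h
  · rw [h]; norm_num
  · exfalso
    apply hN
    have := index_mono (v := v) D.obj D.hdg D.obj_le
    rw [h] at this
    exact top_le_iff.1 this

theorem rk_le_obj (H : M.R →+ ℕ) (h1 : H 1 = 1) (x : M.R) : M.rk x ≤ H x := by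
  classical
  rw [H_eq H, Finsupp.sum]
  unfold rk
  by_cases hx : M.unit ∈ (M.mult x).support
  · have := Finset.single_le_sum (f := fun s => M.mult x s * H (M.cls s))
      (fun _ _ => Nat.zero_le _) hx
    simpa [M.cls_unit, h1] using this
  · rw [Finsupp.notMem_support_iff] at hx
    rw [hx]; exact Nat.zero_le _

/-- equality for a power gives equality for its direct summands -/
theorem eq_of_summand (H H' : M.R →+ ℕ) (hle : ∀ x, H x ≤ H' x) (x y y' : M.R) (hy : y + y' = x)
    (hx : H x = H' x) : H y = H' y := by
  have h1 := hle y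
  have h2 := hle y'
  rw [← hy, map_add, map_add] at hx
  omega

/-- the index is a natural number or infinite -/
theorem exists_enat (v : M.R) (H : M.R →+ ℕ) : ∃ N : ℕ∞, (N : ℝ≥0∞) = index v H := by
  classical
  by_cases hN : index v H = ⊤
  · exact ⟨⊤, by rw [hN]; simp⟩
  · set g : M.S → ℕ := fun s => if Occurs v s then H (M.cls s) * M.dim (M.cls s) else 0 with hg
    have hidx : index v H = ∑' s, ((g s : ℕ) : ℝ≥0∞) := by
      unfold index
      apply tsum_congr
      intro s
      simp only [hg]
      split_ifs <;> simp
    have hfin : {s : M.S | g s ≠ 0}.Finite := by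
      rw [hidx] at hN
      refine (ENNReal.finite_const_le_of_tsum_ne_top hN one_ne_zero).subset ?_
      intro s hs
      have h1 : 1 ≤ g s := Nat.one_le_iff_ne_zero.2 hs
      have h2 : (1 : ℝ≥0∞) ≤ ((g s : ℕ) : ℝ≥0∞) := by exact_mod_cast h1
      exact h2
    refine ⟨((∑ s ∈ hfin.toFinset, g s : ℕ) : ℕ∞), ?_⟩
    rw [hidx, tsum_eq_sum (s := hfin.toFinset)]
    · rw [ENat.toENNReal_coe, Nat.cast_sum]
    · intro s hs
      have : g s = 0 := by
        by_contra hne
        exact hs (by simpa using hne)
      rw [this]; simp

end NumMotives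

end Pool.Agent.L0h13.QD
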