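import Pool.Agent.L0h13.QD.Base

set_option autoImplicit false

namespace Pool.Agent.L0h13.QD

open Filter Topology

namespace NumMotives

variable (M : NumMotives)

/-- `v` is the class of the motive of a variety: self-dual, with the unit motive as a direct summand -/
structure IsVariety (v : M.R) : Prop where
  selfdual : M.dual v = v
  unit_summand : ∃ w, v = 1 + w

/-- The ranks of the numerical cycle classes on the even powers grow as fast as possible; this
holds if the Kuenneth projector onto the even cohomology is algebraic (sign conjecture): then the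
graphs of the permutations of the factors already suffice. -/
def FullGrowth (v : M.R) : Prop :=
  ∀ c : ℝ, 0 ≤ c → c < (M.dim v : ℝ) ^ 2 → ∃ k : ℕ, c ^ k < M.rk (v ^ (2 * k))

variable {M}

theorem IsVariety.one_le {v : M.R} (h : M.IsVariety v) (k : ℕ) : ∃ w, v ^ k = 1 + w := by
  obtain ⟨w, hw⟩ := h.unit_summand
  induction k with
  | zero => exact ⟨0, by simp⟩
  | succ k ih =>
    obtain ⟨u, hu⟩ := ih
    refine ⟨w + u * (1 + w), ?_⟩
    rw [pow_succ, hu, hw]; ring

theorem IsVariety.rk_pos {v : M.R} (h : M.IsVariety v) (k : ℕ) : 0 < M.rk (v ^ k) := by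
  obtain ⟨w, hw⟩ := h.one_le k
  rw [hw, rk_add, rk_one]; omega

theorem logconvex {v : M.R} (h : M.IsVariety v) (k : ℕ) :
    M.rk (v ^ (2 * (k + 1))) ^ 2 ≤ M.rk (v ^ (2 * k)) * M.rk (v ^ (2 * (k + 2))) := by
  have h1 := M.cs (v ^ k) (v ^ (k + 2))
  simp only [map_pow, h.selfdual] at h1
  have e1 : v ^ k * v ^ (k + 2) = v ^ (2 * (k + 1)) := by ring
  have e2 : v ^ k * v ^ k = v ^ (2 * k) := by ring
  have e3 : v ^ (k + 2) * v ^ (k + 2) = v ^ (2 * (k + 2)) := by ring
  rwa [e1, e2, e3] at h1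

theorem tendsto_ratio_one {v : M.R} (h : M.IsVariety v) (hg : M.FullGrowth v) :
    Tendsto (fun k : ℕ => (M.rk (v ^ (2 * (k + 1))) : ℝ) / M.rk (v ^ (2 * k))) atTop
      (𝓝 ((M.dim v : ℝ) ^ 2)) := by
  set A : ℕ → ℝ := fun k => (M.rk (v ^ (2 * k)) : ℝ) with hA
  have hApos : ∀ k, 0 < A k := fun k => by simpa [hA] using h.rk_pos (2 * k)
  set q : ℕ → ℝ := fun k => A (k + 1) / A k with hq
  have hmono : Monotone q := by
    apply monotone_nat_of_le_succ
    intro k
    rw [hq]
    simp only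
    rw [div_le_div_iff₀ (hApos k) (hApos (k + 1))]
    have := logconvex h k
    have h2 : ((M.rk (v ^ (2 * (k + 1))) ^ 2 : ℕ) : ℝ) ≤
      ((M.rk (v ^ (2 * k)) * M.rk (v ^ (2 * (k + 2))) : ℕ) : ℝ) := by exact_mod_cast this
    push_cast at h2
    simp only [hA]
    nlinarith [h2]
  have hle : ∀ k, q k ≤ (M.dim v : ℝ) ^ 2 := by
    intro k
    rw [hq]
    simp only
    rw [div_le_iff₀ (hApos k)]
    have := M.rk_mul_le v (v ^ 2) h.selfdual k
    have e : v ^ 2 * v ^ (2 * k) = v ^ (2 * (k + 1)) := by ring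
    rw [e, map_pow] at this
    simp only [hA]
    exact_mod_cast this
  have hbdd : BddAbove (Set.range q) := ⟨_, by rintro _ ⟨k, rfl⟩; exact hle k⟩
  have hlim := tendsto_atTop_ciSup hmono hbdd
  set L := ⨆ k, q k with hL
  have hLle : L ≤ (M.dim v : ℝ) ^ 2 := ciSup_le hle
  have hqL : ∀ k, q k ≤ L := fun k => le_ciSup hbdd k
  have hq0 : ∀ k, 0 < q k := fun k => div_pos (hApos _) (hApos _)
  have hL0 : 0 < L := lt_of_lt_of_le (hq0 0) (hqL 0)
  have hAL : ∀ k, A k ≤ L ^ k := by
    intro k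
    induction k with
    | zero => simp [hA, rk_one]
    | succ k ih =>
      have h1 : A (k + 1) = q k * A k := by
        rw [hq]; simp only; rw [div_mul_cancel₀ _ (hApos k).ne']
      rw [h1, pow_succ, mul_comm (L ^ k)]
      exact mul_le_mul (hqL k) ih (hApos k).le hL0.le
  have hLeq : L = (M.dim v : ℝ) ^ 2 := by
    by_contra hne
    have hlt : L < (M.dim v : ℝ) ^ 2 := lt_of_le_of_ne hLle hne
    obtain ⟨k, hk⟩ := hg L hL0.le hlt
    have := hAL k
    simp only [hA] at this
    linarith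
  rw [← hLeq]
  exact hlim

theorem tendsto_ratio {v : M.R} (h : M.IsVariety v) (hg : M.FullGrowth v) (s : ℕ) :
    Tendsto (fun k : ℕ => (M.rk (v ^ (2 * (k + s))) : ℝ) / M.rk (v ^ (2 * k))) atTop
      (𝓝 ((M.dim v : ℝ) ^ (2 * s))) := by
  induction s with
  | zero =>
    have : (fun k : ℕ => (M.rk (v ^ (2 * (k + 0))) : ℝ) / M.rk (v ^ (2 * k))) = fun _ => 1 := by
      funext k
      have := h.rk_pos (2 * k)
      simp only [add_zero]
      exact div_self (by exact_mod_cast this.ne')
    rw [this]; simp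
  | succ s ih =>
    have h1 := (tendsto_add_atTop_iff_nat s).2 (tendsto_ratio_one h hg)
    have h2 := ih.mul h1
    have e : (M.dim v : ℝ) ^ (2 * (s + 1)) = (M.dim v : ℝ) ^ (2 * s) * (M.dim v : ℝ) ^ 2 := by ring
    rw [e]
    refine h2.congr ?_
    intro k
    have hp : (M.rk (v ^ (2 * (k + s))) : ℝ) ≠ 0 := by
      have := h.rk_pos (2 * (k + s)); exact_mod_cast this.ne'
    have hp2 : (M.rk (v ^ (2 * k)) : ℝ) ≠ 0 := by
      have := h.rk_pos (2 * k); exact_mod_cast this.ne'
    have e2 : k + (s + 1) = k + s + 1 := by ring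
    rw [e2]
    field_simp

/-- Equidistribution: a direct summand `y` of an even power. -/
theorem tendsto_summand {v : M.R} (h : M.IsVariety v) (hg : M.FullGrowth v) (s : ℕ) (y y' : M.R)
    (hy : y + y' = v ^ (2 * s)) :
    Tendsto (fun k : ℕ => (M.rk (y * v ^ (2 * k)) : ℝ) / M.rk (v ^ (2 * k))) atTop
      (𝓝 (M.dim y)) := by
  have hApos : ∀ k, (0 : ℝ) < M.rk (v ^ (2 * k)) := fun k => by
    have := h.rk_pos (2 * k); exact_mod_cast this
  have hd : (M.dim y : ℝ) + M.dim y' = (M.dim v : ℝ) ^ (2 * s) := by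
    have := congrArg M.dim hy
    rw [map_add, map_pow] at this
    exact_mod_cast this
  have hup : ∀ k, (M.rk (y * v ^ (2 * k)) : ℝ) / M.rk (v ^ (2 * k)) ≤ M.dim y := by
    intro k
    rw [div_le_iff₀ (hApos k)]
    exact_mod_cast M.rk_mul_le v y h.selfdual k
  have hlo : ∀ k, (M.rk (v ^ (2 * (k + s))) : ℝ) / M.rk (v ^ (2 * k)) - M.dim y' ≤
      (M.rk (y * v ^ (2 * k)) : ℝ) / M.rk (v ^ (2 * k)) := by
    intro k
    have h1 : M.rk (v ^ (2 * (k + s))) = M.rk (y * v ^ (2 * k)) + M.rk (y' * v ^ (2 * k)) := by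
      rw [← rk_add, ← add_mul, hy]; congr 1; ring
    have h2 := M.rk_mul_le v y' h.selfdual k
    rw [sub_le_iff_le_add, div_le_iff₀ (hApos k), add_mul, div_mul_cancel₀ _ (hApos k).ne', h1]
    push_cast
    have h2' : (M.rk (y' * v ^ (2 * k)) : ℝ) ≤ M.dim y' * M.rk (v ^ (2 * k)) := by exact_mod_cast h2
    linarith
  have hlim : Tendsto (fun k => (M.rk (v ^ (2 * (k + s))) : ℝ) / M.rk (v ^ (2 * k)) - M.dim y')
      atTop (𝓝 (M.dim y)) := by
    have := (tendsto_ratio h hg s).sub_const (M.dim y' : ℝ)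
    rwa [← hd, add_sub_cancel_right] at this
  exact tendsto_of_tendsto_of_tendsto_of_le_of_le hlim tendsto_const_nhds hlo hup

/-- a simple motive which occurs in a motive is a direct summand -/
theorem exists_add (x : M.R) (s : M.S) (hs : M.mult x s ≠ 0) : ∃ y, M.cls s + y = x := by
  classical
  refine ⟨((M.mult x) - Finsupp.single s 1).sum fun t n => n • M.cls t, ?_⟩
  have h1 : Finsupp.single s 1 + (M.mult x - Finsupp.single s 1) = M.mult x := by
    ext t
    by_cases ht : s = t
    · subst ht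
      simp only [Finsupp.coe_add, Finsupp.coe_tsub, Pi.add_apply, Pi.sub_apply,
        Finsupp.single_eq_same]
      omega
    · simp [Finsupp.single_apply, ht]
  have h2 : (M.mult x).sum (fun t n => n • M.cls t) = M.cls s +
      ((M.mult x) - Finsupp.single s 1).sum fun t n => n • M.cls t := by
    conv_lhs => rw [← h1]
    rw [Finsupp.sum_add_index']
    · simp
    · intro t; simp
    · intro t a b; rw [add_smul]
  rw [← h2, ← M.semisimple x]

/-- The multiplicity of a simple motive in the powers, compared with the unit motive. -/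
theorem tendsto_mult {v : M.R} (h : M.IsVariety v) (hg : M.FullGrowth v) (s : M.S) (j : ℕ)
    (hs : M.mult (v ^ (2 * j)) s ≠ 0) :
    Tendsto (fun k : ℕ => (M.mult (v ^ (2 * k)) s : ℝ) / M.rk (v ^ (2 * k))) atTop
      (𝓝 (M.dim (M.cls s))) := by
  obtain ⟨y, hy⟩ := exists_add _ s hs
  have h1 : M.dual (M.cls s) + M.dual y = v ^ (2 * j) := by
    rw [← map_add, hy, map_pow, h.selfdual]
  have h2 := tendsto_summand h hg j _ _ h1
  rw [M.dim_dual] at h2
  refine h2.congr ?_
  intro k
  rw [M.mult_eq]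

theorem mult_le {v : M.R} (h : M.IsVariety v) (s : M.S) (k : ℕ) :
    M.mult (v ^ (2 * k)) s ≤ M.dim (M.cls s) * M.rk (v ^ (2 * k)) := by
  rw [M.mult_eq]
  have := M.rk_mul_le v (M.dual (M.cls s)) h.selfdual k
  rwa [M.dim_dual] at this

end NumMotives

end Pool.Agent.L0h13.QD
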