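import Pool.Agent.L0h13.QD.Limit

set_option autoImplicit false

namespace Pool.Agent.L0h13.QD

open Filter Topology
open scoped ENNReal

namespace NumMotives

variable {M : NumMotives}

/-- the simple motive `s` is a direct summand of some power of `v` -/
def Occurs (v : M.R) (s : M.S) : Prop := ∃ r : ℕ, M.mult (v ^ r) s ≠ 0

theorem mult_mono {v : M.R} (h : M.IsVariety v) (s : M.S) (r t : ℕ) (hrt : r ≤ t) :
    M.mult (v ^ r) s ≤ M.mult (v ^ t) s := by
  obtain ⟨w, hw⟩ := h.one_le (t - r)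
  have e : v ^ t = v ^ r + v ^ r * w := by
    have : v ^ t = v ^ r * v ^ (t - r) := by rw [← pow_add]; congr 1; omega
    rw [this, hw]; ring
  rw [e, map_add]
  simp

theorem occurs_even {v : M.R} (h : M.IsVariety v) (s : M.S) (hs : Occurs v s) :
    ∃ j : ℕ, M.mult (v ^ (2 * j)) s ≠ 0 := by
  obtain ⟨r, hr⟩ := hs
  refine ⟨r, ?_⟩
  have := mult_mono h s r (2 * r) (by omega)
  omega

theorem occurs_unit {v : M.R} (h : M.IsVariety v) : Occurs v M.unit :=
  ⟨0, by
    have := h.rk_pos 0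
    unfold rk at this
    omega⟩

open Classical in
/-- The number `N`: the sum of `H λ * dim λ` over the simple motives which occur in the powers. -/
noncomputable def index (v : M.R) (H : M.R →+ ℕ) : ℝ≥0∞ :=
  ∑' s : M.S, if Occurs v s then ((H (M.cls s) * M.dim (M.cls s) : ℕ) : ℝ≥0∞) else 0

theorem H_eq (H : M.R →+ ℕ) (x : M.R) : H x = (M.mult x).sum fun s n => n * H (M.cls s) := by
  conv_lhs => rw [M.semisimple x]
  rw [Finsupp.sum, map_sum]
  exact Finset.sum_congr rfl fun s _ => by rw [map_nsmul, smul_eq_mul]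

/-- The ratio converges to `N`. -/
theorem tendsto_index {v : M.R} (h : M.IsVariety v) (hg : M.FullGrowth v) (H : M.R →+ ℕ) :
    Tendsto (fun k : ℕ => (H (v ^ (2 * k)) : ℝ≥0∞) / (M.rk (v ^ (2 * k)) : ℝ≥0∞)) atTop
      (𝓝 (index v H)) := by
  classical
  set f : ℕ → M.S → ℝ≥0∞ := fun k s =>
    ((M.mult (v ^ (2 * k)) s * H (M.cls s) : ℕ) : ℝ≥0∞) / (M.rk (v ^ (2 * k)) : ℝ≥0∞) with hf
  set g : M.S → ℝ≥0∞ := fun s =>
    if Occurs v s then ((H (M.cls s) * M.dim (M.cls s) : ℕ) : ℝ≥0∞) else 0 with hgdef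
  have hAne : ∀ k, (M.rk (v ^ (2 * k)) : ℝ≥0∞) ≠ 0 := fun k => by
    have := h.rk_pos (2 * k)
    exact_mod_cast this.ne'
  have hAtop : ∀ k, (M.rk (v ^ (2 * k)) : ℝ≥0∞) ≠ ⊤ := fun k => ENNReal.natCast_ne_top _
  have hsum : ∀ k, (H (v ^ (2 * k)) : ℝ≥0∞) / (M.rk (v ^ (2 * k)) : ℝ≥0∞) = ∑' s, f k s := by
    intro k
    have h1 : (∑' s, f k s) = ∑ s ∈ (M.mult (v ^ (2 * k))).support, f k s := by
      apply tsum_eq_sum
      intro s hs
      rw [Finsupp.notMem_support_iff] at hs
      simp [hf, hs]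
    rw [h1, H_eq H, Finsupp.sum]
    simp only [hf]
    simp only [div_eq_mul_inv]
    rw [← Finset.sum_mul]
    push_cast
    rfl
  have hle : ∀ k s, f k s ≤ g s := by
    intro k s
    simp only [hf, hgdef]
    split_ifs with ho
    · rw [ENNReal.div_le_iff (hAne k) (hAtop k)]
      have := mult_le h s k
      have h2 : M.mult (v ^ (2 * k)) s * H (M.cls s) ≤
        H (M.cls s) * M.dim (M.cls s) * M.rk (v ^ (2 * k)) := by
        calc M.mult (v ^ (2 * k)) s * H (M.cls s)
            ≤ (M.dim (M.cls s) * M.rk (v ^ (2 * k))) * H (M.cls s) := Nat.mul_le_mul_right _ this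
          _ = _ := by ring
      exact_mod_cast h2
    · have : M.mult (v ^ (2 * k)) s = 0 := by
        by_contra hne
        exact ho ⟨_, hne⟩
      simp [this]
  have hlim : ∀ s, Tendsto (fun k => f k s) atTop (𝓝 (g s)) := by
    intro s
    simp only [hgdef]
    split_ifs with ho
    · obtain ⟨j, hj⟩ := occurs_even h s ho
      have h1 := tendsto_mult h hg s j hj
      have h2 := (ENNReal.continuous_ofReal.tendsto _).comp (h1.mul_const (H (M.cls s) : ℝ))
      have e : ENNReal.ofReal ((M.dim (M.cls s) : ℝ) * (H (M.cls s) : ℝ)) =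
          ((H (M.cls s) * M.dim (M.cls s) : ℕ) : ℝ≥0∞) := by
        rw [← Nat.cast_mul, ENNReal.ofReal_natCast, mul_comm]
      rw [e] at h2
      refine h2.congr ?_
      intro k
      simp only [Function.comp_apply, hf]
      have hpos : (0 : ℝ) < M.rk (v ^ (2 * k)) := by
        have := h.rk_pos (2 * k); exact_mod_cast this
      have e2 : (M.mult (v ^ (2 * k)) s : ℝ) / M.rk (v ^ (2 * k)) * (H (M.cls s) : ℝ) =
        ((M.mult (v ^ (2 * k)) s * H (M.cls s) : ℕ) : ℝ) / ((M.rk (v ^ (2 * k)) : ℕ) : ℝ) := by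
        push_cast; ring
      rw [e2, ENNReal.ofReal_div_of_pos hpos, ENNReal.ofReal_natCast, ENNReal.ofReal_natCast]
    · have : ∀ k, f k s = 0 := by
        intro k
        have : M.mult (v ^ (2 * k)) s = 0 := by
          by_contra hne
          exact ho ⟨_, hne⟩
        simp [hf, this]
      simp only [this]
      exact tendsto_const_nhds
  have hidx : index v H = ∑' s, g s := rfl
  rw [hidx]
  simp only [hsum]
  rw [tendsto_order]
  constructor
  · intro c hc
    rw [ENNReal.tsum_eq_iSup_sum] at hc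
    obtain ⟨F, hF⟩ := lt_iSup_iff.1 hc
    have h1 : Tendsto (fun k => ∑ s ∈ F, f k s) atTop (𝓝 (∑ s ∈ F, g s)) :=
      tendsto_finsetSum _ fun s _ => hlim s
    filter_upwards [h1.eventually (lt_mem_nhds hF)] with k hk
    exact lt_of_lt_of_le hk (ENNReal.sum_le_tsum F)
  · intro c hc
    exact Eventually.of_forall fun k => lt_of_le_of_lt (ENNReal.tsum_le_tsum (hle k)) hc

/-- If some power has a class which is not numerically algebraic, the number is at least two. -/
theorem two_le_index {v : M.R} (h : M.IsVariety v) (H : M.R →+ ℕ) (h1 : H 1 = 1) (r : ℕ)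
    (hr : H (v ^ r) ≠ M.rk (v ^ r)) : 2 ≤ index v H := by
  classical
  have hex : ∃ s, s ≠ M.unit ∧ M.mult (v ^ r) s ≠ 0 ∧ H (M.cls s) ≠ 0 := by
    by_contra hcon
    push Not at hcon
    apply hr
    rw [H_eq H, Finsupp.sum]
    unfold rk
    have : ∀ s ∈ (M.mult (v ^ r)).support, M.mult (v ^ r) s * H (M.cls s) =
        if s = M.unit then M.mult (v ^ r) M.unit else 0 := by
      intro s hs
      rw [Finsupp.mem_support_iff] at hs
      split_ifs with e
      · subst e; rw [M.cls_unit, h1, mul_one]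
      · rw [hcon s e hs, mul_zero]
    rw [Finset.sum_congr rfl this, Finset.sum_ite_eq']
    split_ifs with hm
    · rfl
    · rw [Finsupp.notMem_support_iff] at hm
      exact hm.symm
  obtain ⟨s, hs1, hs2, hs3⟩ := hex
  have hle : ∑ t ∈ ({s, M.unit} : Finset M.S),
      (if Occurs v t then ((H (M.cls t) * M.dim (M.cls t) : ℕ) : ℝ≥0∞) else 0) ≤ index v H :=
    ENNReal.sum_le_tsum _
  refine le_trans ?_ hle
  rw [Finset.sum_pair hs1, if_pos ⟨r, hs2⟩, if_pos (occurs_unit h), M.cls_unit, h1, map_one]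
  have : 1 ≤ H (M.cls s) * M.dim (M.cls s) :=
    Nat.one_le_iff_ne_zero.2 (mul_ne_zero hs3 (M.dim_pos s).ne')
  have h2 : (1 : ℝ≥0∞) ≤ ((H (M.cls s) * M.dim (M.cls s) : ℕ) : ℝ≥0∞) := by exact_mod_cast this
  calc (2 : ℝ≥0∞) = 1 + 1 := by norm_num
    _ ≤ _ := by
      gcongr
      simp

theorem index_eq_one {v : M.R} (h : M.IsVariety v) (H : M.R →+ ℕ) (h1 : H 1 = 1)
    (hall : ∀ r, H (v ^ r) = M.rk (v ^ r)) : index v H = 1 := by
  classical
  unfold index
  rw [tsum_eq_single M.unit]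
  · rw [if_pos (occurs_unit h), M.cls_unit, h1, map_one]; simp
  · intro s hs
    split_ifs with ho
    · obtain ⟨r, hr⟩ := ho
      have hz : H (M.cls s) = 0 := by
        by_contra hne
        have e := hall r
        rw [H_eq H, Finsupp.sum] at e
        have hu : M.mult (v ^ r) M.unit * H (M.cls M.unit) = M.rk (v ^ r) := by
          rw [M.cls_unit, h1, mul_one]; rfl
        have hsub : ∑ t ∈ ({s, M.unit} : Finset M.S), M.mult (v ^ r) t * H (M.cls t) ≤
            ∑ t ∈ (M.mult (v ^ r)).support, M.mult (v ^ r) t * H (M.cls t) := by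
          have : ∑ t ∈ ({s, M.unit} : Finset M.S), M.mult (v ^ r) t * H (M.cls t) ≤
              ∑ t ∈ (M.mult (v ^ r)).support ∪ {s, M.unit}, M.mult (v ^ r) t * H (M.cls t) :=
            Finset.sum_le_sum_of_subset Finset.subset_union_right
          refine this.trans (le_of_eq ?_)
          symm
          apply Finset.sum_subset Finset.subset_union_left
          intro t _ ht
          rw [Finsupp.notMem_support_iff] at ht
          rw [ht, zero_mul]
        rw [Finset.sum_pair hs, hu, e] at hsub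
        have : 0 < M.mult (v ^ r) s * H (M.cls s) :=
          Nat.pos_of_ne_zero (mul_ne_zero hr hne)
        omega
      simp [hz]
    · rfl

/-- Without the sign conjecture: a gap. -/
theorem gap {v : M.R} (h : M.IsVariety v) (H : M.R →+ ℕ) (h1 : H 1 = 1) (r : ℕ)
    (hr : H (v ^ r) ≠ M.rk (v ^ r)) (k : ℕ) (hk : r ≤ k) :
    (M.dim v ^ (2 * r) + 1) * M.rk (v ^ (2 * k)) ≤ M.dim v ^ (2 * r) * H (v ^ (2 * k)) := by
  classical
  have hex : ∃ s, s ≠ M.unit ∧ M.mult (v ^ r) s ≠ 0 ∧ H (M.cls s) ≠ 0 := by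
    by_contra hcon
    push Not at hcon
    apply hr
    rw [H_eq H, Finsupp.sum]
    unfold rk
    have : ∀ s ∈ (M.mult (v ^ r)).support, M.mult (v ^ r) s * H (M.cls s) =
        if s = M.unit then M.mult (v ^ r) M.unit else 0 := by
      intro s hs
      rw [Finsupp.mem_support_iff] at hs
      split_ifs with e
      · subst e; rw [M.cls_unit, h1, mul_one]
      · rw [hcon s e hs, mul_zero]
    rw [Finset.sum_congr rfl this, Finset.sum_ite_eq']
    split_ifs with hm
    · rfl
    · rw [Finsupp.notMem_support_iff] at hm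
      exact hm.symm
  obtain ⟨s, hs1, hs2, hs3⟩ := hex
  have hs4 : M.mult (v ^ (2 * r)) s ≠ 0 := by
    have := mult_mono h s r (2 * r) (by omega)
    omega
  obtain ⟨y, hy⟩ := exists_add _ s hs4
  obtain ⟨n, rfl⟩ := Nat.exists_eq_add_of_le hk
  -- the multiplicity of `s`
  have hm : M.rk (v ^ (2 * n)) ≤ M.mult (v ^ (2 * (r + n))) s := by
    obtain ⟨u, hu⟩ : ∃ u, v ^ (2 * n) = (M.rk (v ^ (2 * n))) • (1 : M.R) + u := by
      refine ⟨((M.mult (v ^ (2 * n))).erase M.unit).sum fun t a => a • M.cls t, ?_⟩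
      conv_lhs => rw [M.semisimple (v ^ (2 * n))]
      rw [← Finsupp.single_add_erase M.unit (M.mult (v ^ (2 * n))), Finsupp.sum_add_index']
      · rw [Finsupp.sum_single_index (by simp), M.cls_unit]
        simp [rk]
      · intro t; simp
      · intro t a b; rw [add_smul]
    have e : v ^ (2 * (r + n)) = M.rk (v ^ (2 * n)) • M.cls s +
        (M.rk (v ^ (2 * n)) • y + u * v ^ (2 * r)) := by
      have e0 : v ^ (2 * (r + n)) = v ^ (2 * n) * v ^ (2 * r) := by ring
      rw [e0]
      conv_lhs => rw [hu]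
      rw [add_mul, smul_mul_assoc, one_mul]
      conv_lhs => enter [1, 2]; rw [← hy]
      rw [smul_add, add_assoc]
    rw [e, map_add, map_nsmul, M.mult_cls]
    simp
  have hA : M.rk (v ^ (2 * (r + n))) ≤ M.dim v ^ (2 * r) * M.rk (v ^ (2 * n)) := by
    have := M.rk_mul_le v (v ^ (2 * r)) h.selfdual n
    rw [map_pow] at this
    have e0 : v ^ (2 * (r + n)) = v ^ (2 * r) * v ^ (2 * n) := by ring
    rw [e0]; exact this
  have hH : M.rk (v ^ (2 * (r + n))) + M.mult (v ^ (2 * (r + n))) s ≤ H (v ^ (2 * (r + n))) := by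
    rw [H_eq H, Finsupp.sum]
    have hsub : ∑ t ∈ ({s, M.unit} : Finset M.S), M.mult (v ^ (2 * (r + n))) t * H (M.cls t) ≤
        ∑ t ∈ (M.mult (v ^ (2 * (r + n)))).support,
          M.mult (v ^ (2 * (r + n))) t * H (M.cls t) := by
      have : ∑ t ∈ ({s, M.unit} : Finset M.S), M.mult (v ^ (2 * (r + n))) t * H (M.cls t) ≤
          ∑ t ∈ (M.mult (v ^ (2 * (r + n)))).support ∪ {s, M.unit},
            M.mult (v ^ (2 * (r + n))) t * H (M.cls t) :=
        Finset.sum_le_sum_of_subset Finset.subset_union_right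
      refine this.trans (le_of_eq ?_)
      symm
      apply Finset.sum_subset Finset.subset_union_left
      intro t _ ht
      rw [Finsupp.notMem_support_iff] at ht
      rw [ht, zero_mul]
    rw [Finset.sum_pair hs1, M.cls_unit, h1, mul_one] at hsub
    have h5 : M.mult (v ^ (2 * (r + n))) s ≤ M.mult (v ^ (2 * (r + n))) s * H (M.cls s) :=
      Nat.le_mul_of_pos_right _ (Nat.pos_of_ne_zero hs3)
    unfold rk
    omega
  calc (M.dim v ^ (2 * r) + 1) * M.rk (v ^ (2 * (r + n)))
      = M.dim v ^ (2 * r) * M.rk (v ^ (2 * (r + n))) + M.rk (v ^ (2 * (r + n))) := by ring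
    _ ≤ M.dim v ^ (2 * r) * M.rk (v ^ (2 * (r + n))) +
        M.dim v ^ (2 * r) * M.mult (v ^ (2 * (r + n))) s := by
      have := hA.trans (Nat.mul_le_mul_left _ hm)
      omega
    _ = M.dim v ^ (2 * r) * (M.rk (v ^ (2 * (r + n))) + M.mult (v ^ (2 * (r + n))) s) := by ring
    _ ≤ _ := Nat.mul_le_mul_left _ hH

end NumMotives

end Pool.Agent.L0h13.QD
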