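import Pool.Agent.L0h13.QD.Quant

set_option autoImplicit false

namespace Pool.Agent.L0h13.QD

open Filter Topology
open scoped ENNReal

namespace NumMotives

/-- The algebra of the functions `g ↦ l (g z)` on the group `G` of the motives modulo numerical
equivalence generated by `v`, for cycle classes `z` (modulo homological equivalence) and linear
forms `l` on the cohomology. -/
structure CycleAlgebra (M : NumMotives) (v : M.R) (H : M.R →+ ℕ) where
  /-- the field of coefficients -/
  K : Type
  [field : Field K]
  [charZero : CharZero K]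
  /-- the algebra of functions -/
  B : Type
  [ring : CommRing B]
  [algebra : Algebra K B]
  [reduced : IsReduced B]
  /-- the group of the motives, acting by translations -/
  G : Type
  [group : Group G]
  [action : MulSemiringAction G B]
  [comm : SMulCommClass G K B]
  /-- the functions for cycle classes on the simple motive `s`; dimension
  `(dimension of the cycle classes) * (dimension of the cohomology)` -/
  part : M.S → Submodule K B
  finite_part : ∀ s, FiniteDimensional K (part s)
  finrank_part : ∀ s, Occurs v s → Module.finrank K (part s) = H (M.cls s) * M.dim (M.cls s)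
  span_part : ⨆ s : {s : M.S // Occurs v s}, part s = ⊤
  /-- an invariant linear form vanishes on the functions of the nontrivial simple motives -/
  invariant : ∀ f : B →ₗ[K] K, (∀ (g : G) (b : B), f (g • b) = f b) →
    ∀ s, Occurs v s → s ≠ M.unit → ∀ b ∈ part s, f b = 0
  /-- the classes which are numerically equivalent to zero form an ideal -/
  ideal : ∀ s, Occurs v s → s ≠ M.unit → ∀ b ∈ part s, ∀ c : B,
    c * b ∈ ⨆ t : {t : M.S // Occurs v t ∧ t ≠ M.unit}, part t

attribute [instance] CycleAlgebra.field CycleAlgebra.charZero CycleAlgebra.ring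
  CycleAlgebra.algebra CycleAlgebra.reduced CycleAlgebra.group CycleAlgebra.action
  CycleAlgebra.comm

/-- An ideal of a reduced finite-dimensional algebra on which the trace vanishes is zero. -/
theorem ideal_eq_bot (K B : Type) [Field K] [CharZero K] [CommRing B] [Algebra K B] [IsReduced B]
    [FiniteDimensional K B] (I : Ideal B) (h : ∀ b ∈ I, Algebra.trace K B b = 0) : I = ⊥ := by
  have : IsArtinianRing B := isArtinian_of_tower K inferInstance
  have : IsSemisimpleRing B := IsArtinianRing.isSemisimpleRing_of_isReduced B
  obtain ⟨J, hJ⟩ := exists_isCompl I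
  obtain ⟨e, he, f, hf, hef⟩ := Submodule.mem_sup.1 (show (1 : B) ∈ I ⊔ J by rw [hJ.sup_eq_top]; trivial)
  have hx : ∀ x ∈ I, e * x = x := by
    intro x hx
    have h1 : f * x ∈ I ⊓ J := ⟨I.mul_mem_left _ hx, by rw [mul_comm]; exact J.mul_mem_left _ hf⟩
    rw [hJ.inf_eq_bot] at h1
    have h2 : f * x = 0 := h1
    calc e * x = (e + f) * x := by rw [add_mul, h2, add_zero]
      _ = x := by rw [hef, one_mul]
  have hproj : LinearMap.IsProj (I.restrictScalars K) (LinearMap.mulLeft K e) :=
    ⟨fun x => by
      show e * x ∈ I
      rw [mul_comm]; exact I.mul_mem_left _ he, fun x hx' => hx x hx'⟩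
  have htr := hproj.trace
  have h0 : LinearMap.trace K B (LinearMap.mulLeft K e) = 0 := by
    have := h e he
    rw [Algebra.trace_apply] at this
    exact this
  rw [h0] at htr
  have h3 : Module.finrank K (I.restrictScalars K) = 0 := by exact_mod_cast htr.symm
  rw [Submodule.finrank_eq_zero] at h3
  rw [eq_bot_iff]
  intro x hx'
  have : x ∈ I.restrictScalars K := hx'
  rw [h3] at this
  exact this

variable {M : NumMotives}

theorem finite_of_index_ne_top {v : M.R} {H : M.R →+ ℕ} (C : CycleAlgebra M v H)
    (hN : index v H ≠ ⊤) : FiniteDimensional C.K C.B := by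
  classical
  have hfin : {s : M.S | Occurs v s ∧ H (M.cls s) * M.dim (M.cls s) ≠ 0}.Finite := by
    unfold index at hN
    have h1 := ENNReal.finite_const_le_of_tsum_ne_top hN one_ne_zero
    refine h1.subset ?_
    rintro s ⟨hs1, hs2⟩
    simp only [Set.mem_ofPred_eq]
    rw [if_pos hs1]
    have : 1 ≤ H (M.cls s) * M.dim (M.cls s) := Nat.one_le_iff_ne_zero.2 hs2
    exact_mod_cast this
  have htop : (⊤ : Submodule C.K C.B) ≤ ⨆ s ∈ hfin.toFinset, C.part s := by
    rw [← C.span_part]
    apply iSup_le
    rintro ⟨s, hs⟩
    by_cases h0 : H (M.cls s) * M.dim (M.cls s) = 0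
    · have h1 := C.finrank_part s hs
      rw [h0] at h1
      have := C.finite_part s
      rw [Submodule.finrank_eq_zero] at h1
      simp only [h1]
      exact bot_le
    · exact le_biSup C.part (show s ∈ hfin.toFinset by simp [hs]; simpa using h0)
  have := C.finite_part
  have hfd : FiniteDimensional C.K (⨆ s ∈ hfin.toFinset, C.part s : Submodule C.K C.B) := by
    exact Submodule.finite_finset_sup hfin.toFinset C.part |> fun h => by
      rwa [Finset.sup_eq_iSup] at h
  have : (⨆ s ∈ hfin.toFinset, C.part s : Submodule C.K C.B) = ⊤ := top_le_iff.1 htop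
  rw [this] at hfd
  exact Module.finite_def.2 ((Module.Finite.iff_fg).1 hfd)

/-- Zero-one law: the number is one or infinite. -/
theorem index_eq_one_or_top {v : M.R} (h : M.IsVariety v) {H : M.R →+ ℕ} (h1 : H 1 = 1)
    (C : CycleAlgebra M v H) : index v H = 1 ∨ index v H = ⊤ := by
  classical
  by_cases hN : index v H = ⊤
  · exact Or.inr hN
  left
  have := finite_of_index_ne_top C hN
  -- the ideal of the numerically trivial classes
  let I : Ideal C.B :=
    { carrier := (⨆ t : {t : M.S // Occurs v t ∧ t ≠ M.unit}, C.part t : Submodule C.K C.B)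
      add_mem' := fun ha hb => Submodule.add_mem _ ha hb
      zero_mem' := Submodule.zero_mem _
      smul_mem' := by
        intro c x hx
        show c * x ∈ (⨆ t : {t : M.S // Occurs v t ∧ t ≠ M.unit}, C.part t : Submodule C.K C.B)
        have hx' : x ∈ (⨆ t : {t : M.S // Occurs v t ∧ t ≠ M.unit}, C.part t : Submodule C.K C.B) := hx
        have hle : (⨆ t : {t : M.S // Occurs v t ∧ t ≠ M.unit}, C.part t : Submodule C.K C.B) ≤
            Submodule.comap (LinearMap.mulLeft C.K c)
              (⨆ t : {t : M.S // Occurs v t ∧ t ≠ M.unit}, C.part t) := by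
          apply iSup_le
          rintro ⟨t, ht1, ht2⟩ y hy
          exact C.ideal t ht1 ht2 y hy c
        exact hle hx' }
  have hI : I = ⊥ := by
    apply ideal_eq_bot C.K C.B
    intro b hb
    have hinv : ∀ (g : C.G) (b : C.B), Algebra.trace C.K C.B (g • b) = Algebra.trace C.K C.B b := by
      intro g b
      let e : C.B ≃ₐ[C.K] C.B :=
        { MulSemiringAction.toRingEquiv C.G C.B g with
          commutes' := by
            intro r
            show g • algebraMap C.K C.B r = algebraMap C.K C.B r
            rw [Algebra.algebraMap_eq_smul_one, smul_comm, smul_one] }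
      have := Algebra.trace_eq_of_algEquiv e b
      exact this
    have hle : (⨆ t : {t : M.S // Occurs v t ∧ t ≠ M.unit}, C.part t : Submodule C.K C.B) ≤
        LinearMap.ker (Algebra.trace C.K C.B) := by
      apply iSup_le
      rintro ⟨t, ht1, ht2⟩ y hy
      exact C.invariant _ hinv t ht1 ht2 y hy
    exact hle hb
  unfold index
  rw [tsum_eq_single M.unit]
  · rw [if_pos (occurs_unit h), M.cls_unit, h1, map_one]; simp
  · intro s hs
    split_ifs with ho
    · have hz : C.part s = ⊥ := by
        rw [eq_bot_iff]
        intro x hx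
        have hx2 : x ∈ (⨆ t : {t : M.S // Occurs v t ∧ t ≠ M.unit}, C.part t : Submodule C.K C.B) :=
          le_iSup (fun t : {t : M.S // Occurs v t ∧ t ≠ M.unit} => C.part t) ⟨s, ho, hs⟩ hx
        have hx3 : x ∈ I := hx2
        rw [hI] at hx3
        exact hx3
      have := C.finrank_part s ho
      rw [hz, finrank_bot] at this
      rw [← this]; simp
    · rfl

end NumMotives

end Pool.Agent.L0h13.QD
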